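import Pool.Agent.Helper741.UHF.Main

/-! A reflection principle for commuting families in algebras generated by matrix units. -/

open Finset Cardinal Filter Topology

universe u

namespace Pool.Agent.V11109.UHFp

open Pool.Agent.Helper741.UHF

variable {J E : Type u} [CStarAlgebra E] {n : J → ℕ} {e : J → ℕ → ℕ → E}

/-- types -/
abbrev Ty (J E : Type u) : Type u := ℕ × List J × List ℕ × List (List E)

/-- types over `N` -/
def Over (e : J → ℕ → ℕ → E) (N : Set J) : Set (Ty J E) :=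
  {τ | (∀ j ∈ τ.2.1, j ∈ N) ∧ (∀ l ∈ τ.2.2.2, ∀ c ∈ l, c ∈ D e N)}

theorem mk_Over_le {κ : Cardinal.{u}} (hκ : ℵ₀ ≤ κ) (N : Set J) (hN : #N ≤ κ) :
    #(Over e N) ≤ κ := by
  have hD : #(D e N) ≤ κ := mk_D_le.trans (max_le hκ hN)
  let F : (ULift.{u} ℕ × List N × ULift.{u} (List ℕ) × List (List (D e N))) → Ty J E :=
    fun p => (p.1.down, p.2.1.map Subtype.val, p.2.2.1.down,
      p.2.2.2.map (fun l => l.map Subtype.val))
  have hsub : Over e N ⊆ Set.range F := by
    rintro ⟨m, R, ν, cx⟩ ⟨h1, h2⟩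
    dsimp only at h1 h2
    lift R to List N using h1
    have : ∃ cy : List (List (D e N)), cy.map (fun l => l.map Subtype.val) = cx := by
      clear F
      induction cx with
      | nil => exact ⟨[], rfl⟩
      | cons l cx ih =>
        obtain ⟨cy, hcy⟩ := ih fun l hl => h2 l (List.mem_cons_of_mem _ hl)
        have hl := h2 l List.mem_cons_self
        lift l to List (D e N) using hl
        exact ⟨l :: cy, by rw [List.map_cons, hcy]⟩
    obtain ⟨cy, rfl⟩ := this
    exact ⟨(⟨m⟩, R, ⟨ν⟩, cy), rfl⟩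
  refine (mk_le_mk_of_subset hsub).trans (mk_range_le.trans ?_)
  simp only [mk_prod, lift_id]
  refine mul_le_of_le hκ (by simpa using hκ) ?_
  refine mul_le_of_le hκ (mk_list_le hκ hN) ?_
  refine mul_le_of_le hκ (by simpa using hκ) ?_
  exact mk_list_le hκ (mk_list_le hκ hD)

theorem exists_k_list' (N : ℕ → Set J) (hN : Monotone N) (l : List (List E))
    (hl : ∀ l' ∈ l, ∀ c ∈ l', c ∈ D e (⋃ k, N k)) : ∃ k, ∀ l' ∈ l, ∀ c ∈ l', c ∈ D e (N k) := by
  induction l with
  | nil => exact ⟨0, by simp⟩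
  | cons a l ih =>
    obtain ⟨k, hk⟩ := ih fun j hj => hl j (List.mem_cons_of_mem _ hj)
    obtain ⟨k', hk'⟩ := exists_k_list N hN a (hl a List.mem_cons_self)
    refine ⟨max k k', fun j hj c hc => ?_⟩
    rcases List.mem_cons.mp hj with rfl | hj
    · exact D_mono (hN (le_max_right _ _)) (hk' c hc)
    · exact D_mono (hN (le_max_left _ _)) (hk j hj c hc)

theorem Over_finitary (N : ℕ → Set J) (hN : Monotone N) (τ : Ty J E)
    (hτ : τ ∈ Over e (⋃ k, N k)) : ∃ k, τ ∈ Over e (N k) := by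
  obtain ⟨h1, h2⟩ := hτ
  obtain ⟨k1, h1⟩ := exists_k_set N hN _ h1
  obtain ⟨k2, h2⟩ := exists_k_list' N hN _ h2
  exact ⟨max k1 k2, ⟨fun j hj => hN (le_max_left _ _) (h1 j hj),
    fun l hl c hc => D_mono (hN (le_max_right _ _)) (h2 l hl c hc)⟩⟩

/-- realisation of a type -/
def Real {Λ : Type u} {ι : Type} [Fintype ι] (n : J → ℕ) (e : J → ℕ → ℕ → E) (U : Λ → ι → E)
    (ε : ℕ → ℝ) (τ : Ty J E) (β : Λ) (t : Set J) : Prop :=
  ∃ ℓ : List J, ℓ.Nodup ∧ {j | j ∈ ℓ} = t ∧ (∀ j ∈ ℓ, j ∉ τ.2.1) ∧ ℓ.map n = τ.2.2.1 ∧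
    ∃ x : ι → E, (∀ i, x i ∈ D e ({j | j ∈ τ.2.1} ∪ {j | j ∈ ℓ})) ∧
      (∀ i, ‖x i - U β i‖ ≤ ε τ.1) ∧
      (Finset.univ.toList.map fun i => prof n e ℓ (x i)) = τ.2.2.2

/-- A closed commutative star subalgebra. -/
structure CommSub (C : StarSubalgebra ℂ E) : Prop where
  closed : IsClosed (C : Set E)
  comm : ∀ x ∈ C, ∀ y ∈ C, x * y = y * x

theorem core (h : MUSys n e) {c : ℝ} (hc : 0 < c) {ι : Type} (σ : ι → ι)
    (L : List J) (rest r : ℕ → List J) (hrest0 : rest 0 = [])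
    (hrest : ∀ m, rest (m + 1) = rest m ++ r m)
    (X : ι → ℕ → E) (U : ι → E) (hUs : ∀ b, star (U b) = U (σ b))
    (hX : ∀ b m, ‖X b m - U b‖ ≤ c * (1 / 2) ^ m)
    (hcX : ∀ b m, ∀ j ∈ r m, ∀ a d, Commute (e j a d) (X b m))
    (hcomm : ∀ b b' m, ∀ f ∈ idx ((L ++ rest m).map n), ∀ g ∈ idx ((L ++ rest m).map n),
      ∀ f' ∈ idx ((L ++ rest m).map n), ∀ g' ∈ idx ((L ++ rest m).map n),
      ‖Sl n e (L ++ rest m) f g (X b m) * Sl n e (L ++ rest m) f' g' (X b' m) -
        Sl n e (L ++ rest m) f' g' (X b' m) * Sl n e (L ++ rest m) f g (X b m)‖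
        ≤ 6 * (c * (1 / 2) ^ m)) :
    ∃ Z : ι → E, (∀ b, ‖Z b - U b‖ ≤ 5 * c) ∧ (∀ b, star (Z b) = Z (σ b)) ∧
      ∃ C : StarSubalgebra ℂ E, CommSub C ∧ ∀ b, Z b ∈ sliceAlg h L C := by
  classical
  set Xt : ι → ℕ → E := fun b m => Sl n e (rest m) (z0 (rest m)) (z0 (rest m)) (X b m) with hXt
  have hstep : ∀ b m, dist (Xt b m) (Xt b (m + 1)) ≤ 2 * c * (1 / 2) ^ m := by
    intro b m
    have h1 : Xt b (m + 1) = Sl n e (rest m) (z0 (rest m)) (z0 (rest m))
        (Sl n e (r m) (z0 (r m)) (z0 (r m)) (X b (m + 1))) := by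
      simp only [hXt]
      rw [hrest m, z0_append, Sl_append _ _ _ _ _ _ (z0_length _) (z0_length _)]
    have h2 : Xt b m = Sl n e (rest m) (z0 (rest m)) (z0 (rest m))
        (Sl n e (r m) (z0 (r m)) (z0 (r m)) (X b m)) := by
      rw [Sl_of_commute h (r m) _ _ (z0_mem h _) (z0_mem h _) _ (hcX b m), if_pos rfl]
    rw [dist_eq_norm, h1, h2, ← map_sub, ← map_sub]
    refine (norm_Sl_le' h _ _ _ _).trans ((norm_Sl_le' h _ _ _ _).trans ?_)
    have h3 : X b m - X b (m + 1) = (X b m - U b) - (X b (m + 1) - U b) := by abel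
    rw [h3]
    calc _ ≤ ‖X b m - U b‖ + ‖X b (m + 1) - U b‖ := norm_sub_le _ _
      _ ≤ c * (1 / 2) ^ m + c * (1 / 2) ^ (m + 1) := add_le_add (hX b m) (hX b (m + 1))
      _ ≤ 2 * c * (1 / 2) ^ m := by
          rw [pow_succ]
          have : (0 : ℝ) ≤ c * (1 / 2) ^ m := by positivity
          linarith
  have hZ : ∀ b, ∃ z, Tendsto (Xt b) atTop (𝓝 z) := fun b =>
    cauchySeq_tendsto_of_complete
      (cauchySeq_of_le_geometric (1 / 2) (2 * c) (by norm_num) (hstep b))
  choose Z hZ using hZ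
  have hZU : ∀ b, ‖Z b - U b‖ ≤ 5 * c := by
    intro b
    have h1 := dist_le_of_le_geometric_of_tendsto₀ (1 / 2) (2 * c) (by norm_num) (hstep b) (hZ b)
    have h2 : Xt b 0 = X b 0 := by
      simp only [hXt]
      rw [hrest0]
      simp
    rw [h2, dist_eq_norm] at h1
    have h3 := hX b 0
    rw [pow_zero, mul_one] at h3
    have h4 : Z b - U b = -(X b 0 - Z b) + (X b 0 - U b) := by abel
    rw [h4]
    refine (norm_add_le _ _).trans ?_
    rw [norm_neg]
    norm_num at h1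
    linarith
  have hgeo : Tendsto (fun m : ℕ => 6 * (c * (1 / 2 : ℝ) ^ m)) atTop (𝓝 0) := by
    have := (tendsto_pow_atTop_nhds_zero_of_lt_one (r := (1 / 2 : ℝ)) (by norm_num)
      (by norm_num)).const_mul c
    simpa using this.const_mul 6
  have hZs : ∀ b, star (Z b) = Z (σ b) := by
    intro b
    have h1 : Tendsto (fun m => star (Xt b m) - Xt (σ b) m) atTop (𝓝 (star (Z b) - Z (σ b))) :=
      (hZ b).star.sub (hZ (σ b))
    have h2 : Tendsto (fun m => star (Xt b m) - Xt (σ b) m) atTop (𝓝 0) := by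
      refine squeeze_zero_norm (fun m => ?_) hgeo
      simp only [hXt]
      rw [Sl_star h, ← map_sub]
      refine (norm_Sl_le' h _ _ _ _).trans ?_
      have h3 : star (X b m) - X (σ b) m = star (X b m - U b) - (X (σ b) m - U (σ b)) := by
        rw [star_sub, hUs b]
        abel
      rw [h3]
      refine (norm_sub_le _ _).trans ?_
      rw [norm_star]
      have := hX b m
      have := hX (σ b) m
      have h0 : (0 : ℝ) ≤ c * (1 / 2) ^ m := by positivity
      linarith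
    exact sub_eq_zero.mp (tendsto_nhds_unique h1 h2)
  have hZc : ∀ b b', ∀ f ∈ idx (L.map n), ∀ g ∈ idx (L.map n), ∀ f' ∈ idx (L.map n),
      ∀ g' ∈ idx (L.map n), Sl n e L f g (Z b) * Sl n e L f' g' (Z b') =
        Sl n e L f' g' (Z b') * Sl n e L f g (Z b) := by
    intro b b' f hf g hg f' hf' g' hg'
    have t1 : Tendsto (fun m => Sl n e L f g (Xt b m)) atTop (𝓝 (Sl n e L f g (Z b))) :=
      ((continuous_Sl h L f g).tendsto _).comp (hZ b)
    have t2 : Tendsto (fun m => Sl n e L f' g' (Xt b' m)) atTop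
        (𝓝 (Sl n e L f' g' (Z b'))) := ((continuous_Sl h L f' g').tendsto _).comp (hZ b')
    have t3 := (t1.mul t2).sub (t2.mul t1)
    have t4 : Tendsto (fun m => Sl n e L f g (Xt b m) * Sl n e L f' g' (Xt b' m) -
        Sl n e L f' g' (Xt b' m) * Sl n e L f g (Xt b m)) atTop (𝓝 0) := by
      refine squeeze_zero_norm (fun m => ?_) hgeo
      have hl : ∀ k ∈ idx (L.map n), k.length = L.length := fun k hk => by
        simpa using length_of_mem_idx hk
      have hm : ∀ k ∈ idx (L.map n), k ++ z0 (rest m) ∈ idx ((L ++ rest m).map n) := by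
        intro k hk
        rw [List.map_append]
        exact append_mem_idx hk (z0_mem h _)
      have := hcomm b b' m (f ++ z0 (rest m)) (hm f hf) (g ++ z0 (rest m)) (hm g hg)
        (f' ++ z0 (rest m)) (hm f' hf') (g' ++ z0 (rest m)) (hm g' hg')
      rwa [Sl_append _ _ _ _ _ _ (hl f hf) (hl g hg),
        Sl_append _ _ _ _ _ _ (hl f' hf') (hl g' hg')] at this
    exact sub_eq_zero.mp (tendsto_nhds_unique t3 t4)
  let s : Set E := {z | ∃ b, ∃ f ∈ idx (L.map n), ∃ g ∈ idx (L.map n), Sl n e L f g (Z b) = z}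
  have hs : ∀ z ∈ s, ∀ w ∈ s, z * w = w * z := by
    rintro _ ⟨b, f, hf, g, hg, rfl⟩ _ ⟨b', f', hf', g', hg', rfl⟩
    exact hZc b b' f hf g hg f' hf' g' hg'
  have hss : ∀ z ∈ s, star z ∈ s := by
    rintro _ ⟨b, f, hf, g, hg, rfl⟩
    refine ⟨σ b, g, hg, f, hf, ?_⟩
    rw [Sl_star h, hZs b]
  have hsu : s ∪ star s = s := by
    refine Set.union_eq_self_of_subset_right ?_
    intro z hz
    have := hss _ hz
    rwa [star_star] at this
  let C : StarSubalgebra ℂ E := StarSubalgebra.centralizer ℂ (StarSubalgebra.centralizer ℂ s : Set E)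
  have hCc : (C : Set E) = s.centralizer.centralizer := by
    have := StarSubalgebra.coe_centralizer_centralizer ℂ s
    rw [hsu] at this
    exact this
  have hC : IsClosed (C : Set E) := by
    rw [hCc]
    exact Set.isClosed_centralizer _
  have hCcomm : ∀ x ∈ C, ∀ y ∈ C, x * y = y * x := by
    intro x hx y hy
    have hx' : x ∈ s.centralizer.centralizer := hCc ▸ hx
    have hy' : y ∈ s.centralizer.centralizer := hCc ▸ hy
    exact Set.centralizer_centralizer_comm_of_comm hs x hx' y hy'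
  have hsC : ∀ z ∈ s, z ∈ C := by
    intro z hz
    have : z ∈ (C : Set E) := by
      rw [hCc]
      exact Set.subset_centralizer_centralizer hz
    exact this
  exact ⟨Z, hZU, hZs, C, ⟨hC, hCcomm⟩, fun b f hf g hg => hsC _ ⟨b, f, hf, g, hg, rfl⟩⟩

/-- **Reflection.** A commuting family of more than `#P` bounded star-closed tuples has a member
which is close to a tuple lying in `M_m(C)`, `C` commutative, where the matrix algebra `M_m` is
generated by finitely many sites outside `P`. -/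
theorem reflect (h : MUSys n e)
    (hgen : (Algebra.adjoin ℂ {x | ∃ j a b, x = e j a b}).topologicalClosure = ⊤)
    {Λ : Type u} {ι : Type} [Fintype ι] (σ : ι → ι) (U : Λ → ι → E)
    (hU1 : ∀ α i, ‖U α i‖ ≤ 1) (hUs : ∀ α i, star (U α i) = U α (σ i))
    (hUc : ∀ α β, α ≠ β → ∀ i k, U α i * U β k = U β k * U α i)
    (P : Set J) (hP : ℵ₀ ≤ #P) (hΛ : #P < #Λ) {η : ℝ} (hη : 0 < η) :
    ∃ α, ∃ L : List J, L.Nodup ∧ (∀ j ∈ L, j ∉ P) ∧
      ∃ Z : ι → E, (∀ b, ‖Z b - U α b‖ ≤ η) ∧ (∀ b, star (Z b) = Z (σ b)) ∧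
        ∃ C : StarSubalgebra ℂ E, CommSub C ∧ ∀ b, Z b ∈ sliceAlg h L C := by
  classical
  set c := min 1 (η / 5) with hcdef
  have hc : 0 < c := by positivity
  have hc1 : c ≤ 1 := min_le_left _ _
  have hcη : 5 * c ≤ η := by
    have := min_le_right 1 (η / 5)
    rw [← hcdef] at this
    linarith
  set ε : ℕ → ℝ := fun m => c * (1 / 2) ^ m with hε
  have hεpos : ∀ m, 0 < ε m := fun m => by positivity
  have hε1 : ∀ m, ε m ≤ 1 := by
    intro m
    have h1 : ((1 / 2 : ℝ)) ^ m ≤ 1 := pow_le_one₀ (by norm_num) (by norm_num)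
    calc ε m ≤ c * 1 := by
          simp only [hε]
          gcongr
      _ ≤ 1 := by linarith
  obtain ⟨N, hPN, α, hα⟩ := closing_off (#P) hP hΛ (Over e)
    (fun N hN => mk_Over_le hP N hN) (fun N hN τ hτ => Over_finitary N hN τ hτ)
    (Real n e U ε) P le_rfl
  -- approximations
  have hx : ∀ i m, ∃ T : Finset J, ∃ w ∈ D e (T : Set J), ‖w - U α i‖ ≤ ε m := by
    intro i m
    obtain ⟨T, w, hw, hwu⟩ := dense_D hgen (U α i) (hεpos m)
    exact ⟨T, w, hw, by rw [norm_sub_rev]; exact hwu.le⟩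
  choose Tx x hxD hxu using hx
  set T : ℕ → Finset J := fun m =>
    (Finset.range (m + 1)).biUnion fun k => Finset.univ.biUnion fun i => Tx i k with hT
  have hTmono : ∀ m, T m ⊆ T (m + 1) := fun m =>
    Finset.biUnion_subset_biUnion_of_subset_left _ (Finset.range_subset_range.mpr (by omega))
  have hxT : ∀ i m, x i m ∈ D e (T m : Set J) := fun i m => D_mono (by
    intro j hj
    simp only [hT, Finset.mem_coe, Finset.mem_biUnion, Finset.mem_range, Finset.mem_univ,
      true_and]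
    exact ⟨m, by omega, i, hj⟩) (hxD i m)
  set L : List J := ((T 0).filter (· ∉ N)).toList with hL
  set r : ℕ → List J := fun m => ((T (m + 1) \ T m).filter (· ∉ N)).toList with hr
  set rest : ℕ → List J := fun m => Nat.rec [] (fun k l => l ++ r k) m with hrest
  have hrest0 : rest 0 = [] := rfl
  have hrestS : ∀ m, rest (m + 1) = rest m ++ r m := fun m => rfl
  have hmemL : ∀ m j, j ∈ L ++ rest m ↔ j ∈ T m ∧ j ∉ N := by
    intro m
    induction m with
    | zero =>
      intro j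
      rw [hrest0, List.append_nil, hL, Finset.mem_toList, Finset.mem_filter]
    | succ m ih =>
      intro j
      rw [hrestS, ← List.append_assoc, List.mem_append, ih]
      simp only [hr, Finset.mem_toList, Finset.mem_filter, Finset.mem_sdiff]
      constructor
      · rintro (⟨h1, h2⟩ | ⟨⟨h1, _⟩, h2⟩)
        · exact ⟨hTmono m h1, h2⟩
        · exact ⟨h1, h2⟩
      · rintro ⟨h1, h2⟩
        by_cases h3 : j ∈ T m
        · exact Or.inl ⟨h3, h2⟩
        · exact Or.inr ⟨⟨h1, h3⟩, h2⟩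
  have hnodup : ∀ m, (L ++ rest m).Nodup := by
    intro m
    induction m with
    | zero =>
      rw [hrest0, List.append_nil]
      exact Finset.nodup_toList _
    | succ m ih =>
      rw [hrestS, ← List.append_assoc]
      refine List.Nodup.append ih (Finset.nodup_toList _) ?_
      intro j hj hj'
      have h1 := (hmemL m j).mp hj
      simp only [hr, Finset.mem_toList, Finset.mem_filter, Finset.mem_sdiff] at hj'
      exact hj'.1.2 h1.1
  set R : ℕ → List J := fun m => ((T m).filter (· ∈ N)).toList with hR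
  have hmemR : ∀ m j, j ∈ R m ↔ j ∈ T m ∧ j ∈ N := by
    intro m j
    rw [hR, Finset.mem_toList, Finset.mem_filter]
  have hTsub : ∀ m, (T m : Set J) ⊆ {j | j ∈ R m} ∪ {j | j ∈ L ++ rest m} := by
    intro m j hj
    by_cases h3 : j ∈ N
    · exact Or.inl ((hmemR m j).mpr ⟨hj, h3⟩)
    · exact Or.inr ((hmemL m j).mpr ⟨hj, h3⟩)
  have hLR : ∀ m, ∀ j ∈ L ++ rest m, j ∉ R m := fun m j hj hj' =>
    ((hmemL m j).mp hj).2 ((hmemR m j).mp hj').2
  have hxD' : ∀ i m, x i m ∈ D e ({j | j ∈ R m} ∪ {j | j ∈ L ++ rest m}) := fun i m =>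
    D_mono (hTsub m) (hxT i m)
  -- the twin
  have htwin : ∀ m, ∃ β, β ≠ α ∧ ∃ ℓ' : List J, (∀ j ∈ ℓ', j ∉ L ++ rest m) ∧
      (∀ j ∈ ℓ', j ∉ R m) ∧ ℓ'.map n = (L ++ rest m).map n ∧ ∃ x' : ι → E,
      (∀ i, ‖x' i - U β i‖ ≤ ε m) ∧
      ∀ i, prof n e ℓ' (x' i) = prof n e (L ++ rest m) (x i m) := by
    intro m
    have hover : ((m, R m, (L ++ rest m).map n,
        Finset.univ.toList.map fun i => prof n e (L ++ rest m) (x i m)) : Ty J E) ∈ Over e N := by
      refine ⟨fun j hj => ((hmemR m j).mp hj).2, ?_⟩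
      intro l hl c hc
      simp only [List.mem_map, Finset.mem_toList, Finset.mem_univ, true_and] at hl
      obtain ⟨i, rfl⟩ := hl
      obtain ⟨f, hf, g, hg, rfl⟩ := mem_prof hc
      refine Sl_mem_D h _ (hnodup m) (fun j hj => ((hmemL m j).mp hj).2) ?_ f g hf hg
      refine D_mono ?_ (hxT i m)
      intro j hj
      by_cases h3 : j ∈ N
      · exact Or.inl h3
      · exact Or.inr ((hmemL m j).mpr ⟨hj, h3⟩)
    obtain ⟨β, hβ, t', ht', ℓ', h1, h2, h3, h4, x', hx', h5, h6⟩ :=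
      hα _ hover {j | j ∈ L ++ rest m}
        (Set.disjoint_left.mpr fun j hj hjN => ((hmemL m j).mp hj).2 hjN)
        ⟨L ++ rest m, hnodup m, rfl, hLR m, rfl, fun i => x i m, fun i => hxD' i m,
          fun i => hxu i m, rfl⟩
        {j | j ∈ L ++ rest m} (List.finite_toSet _)
    refine ⟨β, hβ, ℓ', ?_, h3, h4, x', h5, ?_⟩
    · intro j hj hj'
      rw [← h2] at ht'
      exact Set.disjoint_left.mp ht' hj hj'
    · intro i
      rw [List.map_inj_left] at h6
      exact h6 i (by simp)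
  -- apply the core
  obtain ⟨Z, hZ1, hZ2, C, hC, hZ3⟩ := core h hc σ L rest r hrest0 hrestS
    (fun b m => x b m) (U α) (hUs α) (fun b m => hxu b m)
    (by
      have hrT : ∀ m, ∀ j ∈ r m, j ∉ (T m : Set J) := by
        intro m j hj
        simp only [hr, Finset.mem_toList, Finset.mem_filter, Finset.mem_sdiff] at hj
        exact hj.1.2
      intro b m j hj a d
      exact commute_of_mem_D h (hxT b m) (hrT m j hj) a d)
    (by
      intro b b' m f hf g hg f' hf' g' hg'
      obtain ⟨β, hβ, ℓ', hdis, hℓ'R, hmap, x', hx', hpx⟩ := htwin m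
      have hst := stage h (hnodup m) (hLR m) hmap hdis hℓ'R (hxD' b m) (hxD' b' m) (hpx b')
          f g f' g' hf' hg'
      exact hst.trans (norm_comm_le (hε1 m) (hU1 _ _) (hU1 _ _) (hxu b m) (hx' b')
        (hUc _ _ hβ.symm _ _)))
  refine ⟨α, L, Finset.nodup_toList _, ?_, Z, fun b => (hZ1 b).trans hcη, hZ2, C, hC, hZ3⟩
  intro j hj hjP
  rw [hL, Finset.mem_toList, Finset.mem_filter] at hj
  exact hj.2 (hPN hjP)

end Pool.Agent.V11109.UHFp
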