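import Pool.Agent.V11109.UHFp.Num
import Pool.Agent.V11109.UHFp.Reflect

/-! Lower bounds: commuting matrix tuples force many sites. -/

open Finset Cardinal

universe u

namespace Pool.Agent.V11109.UHFp

open Pool.Agent.Helper741.UHF

section ops

variable {E : Type*} [CStarAlgebra E] {κ κ' : Type*} [Fintype κ] [Fintype κ']

theorem MatTuple.norm_le {w : κ → κ → E} (h : MatTuple w) (a b : κ) : ‖w a b‖ ≤ 1 := by
  have h0 : ApproxMat 0 w := by
    refine ⟨h.star_w, fun a b c => ?_, fun a b c d hbc => ?_, ?_⟩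
    · rw [h.mul_w, sub_self, norm_zero]
    · rw [h.ne_w a b c d hbc, norm_zero]
    · rw [h.one_w, sub_self, norm_zero]
  simpa using h0.norm_le le_rfl a b

theorem approxMat_of_close {w x : κ → κ → E} (hw : MatTuple w) {η : ℝ} (hη0 : 0 ≤ η)
    (hη1 : η ≤ 1) (hxs : ∀ a b, star (x a b) = x b a) (hx : ∀ a b, ‖x a b - w a b‖ ≤ η) :
    ApproxMat ((Fintype.card κ + 4) * η) x := by
  have hm0 : (0 : ℝ) ≤ Fintype.card κ := Nat.cast_nonneg _
  refine ⟨hxs, fun a b c => ?_, fun a b c d hbc => ?_, ?_⟩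
  · have h1 := norm_prod_sub_le hη1 (hw.norm_le a b) (hw.norm_le b c) (hx a b) (hx b c)
    rw [hw.mul_w] at h1
    have e1 : x a b * x b c - x a c = (x a b * x b c - w a c) - (x a c - w a c) := by abel
    rw [e1]
    calc _ ≤ ‖x a b * x b c - w a c‖ + ‖x a c - w a c‖ := norm_sub_le _ _
      _ ≤ _ := by
          have := hx a c
          nlinarith
  · have h1 := norm_prod_sub_le hη1 (hw.norm_le a b) (hw.norm_le c d) (hx a b) (hx c d)
    rw [hw.ne_w a b c d hbc, sub_zero] at h1
    nlinarith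
  · have e1 : ∑ a, x a a - 1 = ∑ a, (x a a - w a a) := by
      rw [Finset.sum_sub_distrib, hw.one_w]
    rw [e1]
    calc _ ≤ ∑ a : κ, ‖x a a - w a a‖ := norm_sum_le _ _
      _ ≤ ∑ _a : κ, η := Finset.sum_le_sum fun a _ => hx a a
      _ = Fintype.card κ * η := by rw [Finset.sum_const, Finset.card_univ, nsmul_eq_mul]
      _ ≤ _ := by nlinarith

/-- Product of two commuting matrix tuples. -/
theorem MatTuple.prod {w : κ → κ → E} {v : κ' → κ' → E} (hw : MatTuple w) (hv : MatTuple v)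
    (hc : ∀ a b c d, w a b * v c d = v c d * w a b) :
    MatTuple (fun p q : κ × κ' => w p.1 q.1 * v p.2 q.2) := by
  refine ⟨fun a b => ?_, fun a b c => ?_, fun a b c d hbc => ?_, ?_⟩
  · rw [star_mul, hw.star_w, hv.star_w, hc]
  · calc w a.1 b.1 * v a.2 b.2 * (w b.1 c.1 * v b.2 c.2)
        = w a.1 b.1 * (v a.2 b.2 * w b.1 c.1) * v b.2 c.2 := by noncomm_ring
      _ = (w a.1 b.1 * w b.1 c.1) * (v a.2 b.2 * v b.2 c.2) := by
          rw [← hc]
          noncomm_ring
      _ = _ := by rw [hw.mul_w, hv.mul_w]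
  · have e1 : w a.1 b.1 * v a.2 b.2 * (w c.1 d.1 * v c.2 d.2) =
        (w a.1 b.1 * w c.1 d.1) * (v a.2 b.2 * v c.2 d.2) := by
      calc _ = w a.1 b.1 * (v a.2 b.2 * w c.1 d.1) * v c.2 d.2 := by noncomm_ring
        _ = _ := by
            rw [← hc]
            noncomm_ring
    rw [e1]
    by_cases h1 : b.1 = c.1
    · have h2 : b.2 ≠ c.2 := fun h2 => hbc (Prod.ext h1 h2)
      rw [hv.ne_w _ _ _ _ h2, mul_zero]
    · rw [hw.ne_w _ _ _ _ h1, zero_mul]
  · rw [Fintype.sum_prod_type]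
    simp only [← Finset.mul_sum, hv.one_w, mul_one, hw.one_w]

theorem MatTuple.reindex {w : κ → κ → E} (hw : MatTuple w) (σ : κ' ≃ κ) :
    MatTuple (fun a b => w (σ a) (σ b)) := by
  refine ⟨fun a b => hw.star_w _ _, fun a b c => hw.mul_w _ _ _,
    fun a b c d hbc => hw.ne_w _ _ _ _ fun h => hbc (σ.injective h), ?_⟩
  rw [← hw.one_w]
  exact Equiv.sum_comp σ fun a => w a a

theorem MatTuple.amplify {w : κ × κ' → κ × κ' → E} (hw : MatTuple w) :
    MatTuple (fun a b => ∑ c, w (a, c) (b, c)) := by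
  classical
  refine ⟨fun a b => ?_, fun a b c => ?_, fun a b c d hbc => ?_, ?_⟩
  · rw [star_sum]
    exact Finset.sum_congr rfl fun c _ => hw.star_w _ _
  · rw [Finset.sum_mul]
    refine Finset.sum_congr rfl fun x _ => ?_
    rw [Finset.mul_sum, Finset.sum_eq_single x]
    · exact hw.mul_w _ _ _
    · intro y _ hy
      exact hw.ne_w _ _ _ _ fun h => hy (Prod.ext_iff.mp h).2.symm
    · intro hh
      exact absurd (Finset.mem_univ _) hh
  · rw [Finset.sum_mul]
    refine Finset.sum_eq_zero fun x _ => ?_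
    rw [Finset.mul_sum]
    refine Finset.sum_eq_zero fun y _ => ?_
    exact hw.ne_w _ _ _ _ fun h => hbc (Prod.ext_iff.mp h).1
  · rw [← hw.one_w, Fintype.sum_prod_type]

/-- Product of finitely many commuting matrix tuples. -/
theorem exists_prod {Λ : Type*} {κ : Λ → Type} [∀ i, Fintype (κ i)]
    {w : ∀ i, κ i → κ i → E} (hw : ∀ i, MatTuple (w i))
    (hc : ∀ i j, i ≠ j → ∀ a b c d, w i a b * w j c d = w j c d * w i a b)
    (F : Finset Λ) : ∃ (τ : Type) (_ : Fintype τ) (v : τ → τ → E), MatTuple v ∧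
      Fintype.card τ = ∏ i ∈ F, Fintype.card (κ i) ∧
      ∀ x : E, (∀ i ∈ F, ∀ a b, w i a b * x = x * w i a b) →
        ∀ a b, v a b * x = x * v a b := by
  classical
  induction F using Finset.induction_on with
  | empty =>
    refine ⟨Unit, inferInstance, fun _ _ => 1, ⟨fun _ _ => star_one _, fun _ _ _ => one_mul _,
      fun _ _ _ _ h => absurd rfl h, by simp⟩, by simp, fun x _ _ _ => by simp⟩
  | insert i F hi ih =>
    obtain ⟨τ, hτ, v, hv, hcard, hcomm⟩ := ih
    refine ⟨κ i × τ, inferInstance, _, (hw i).prod hv ?_, ?_, ?_⟩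
    · intro a b c d
      refine (hcomm (w i a b) ?_ c d).symm
      intro j hj a' b'
      exact hc j i (fun h => hi (h ▸ hj)) _ _ _ _
    · rw [Fintype.card_prod, Finset.prod_insert hi, hcard]
    · intro x hx a b
      have h1 := hx i (Finset.mem_insert_self _ _) a.1 b.1
      have h2 := hcomm x (fun j hj => hx j (Finset.mem_insert_of_mem hj)) a.2 b.2
      calc w i a.1 b.1 * v a.2 b.2 * x = w i a.1 b.1 * (v a.2 b.2 * x) := mul_assoc _ _ _
        _ = (w i a.1 b.1 * x) * v a.2 b.2 := by rw [h2, mul_assoc]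
        _ = x * (w i a.1 b.1 * v a.2 b.2) := by rw [h1, mul_assoc]

end ops

variable {J E : Type u} [CStarAlgebra E] {n : J → ℕ} {e : J → ℕ → ℕ → E}

theorem transfer [Nontrivial E] (h : MUSys n e) (ℓ : List J) (C : StarSubalgebra ℂ E)
    (hC : CommSub C) {κ : Type} [Fintype κ] {δ : ℝ} (hδ0 : 0 ≤ δ)
    (hδ : δ * (40 * (Fintype.card κ + 1)) ≤ 1) (x : κ → κ → E)
    (hx : ∀ a b, x a b ∈ sliceAlg h ℓ C) (hA : ApproxMat δ x) :
    Fintype.card κ ∣ (ℓ.map n).prod := by
  obtain ⟨χ⟩ := exists_character C hC.closed hC.comm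
  have hn := norm_opRep_le h ℓ C hC.closed χ
  let X : κ → κ → sliceAlg h ℓ C := fun a b => ⟨x a b, hx a b⟩
  have key : ∀ z : sliceAlg h ℓ C, ‖(z : E)‖ ≤ δ → ‖opRep h ℓ C χ z‖ ≤ δ :=
    fun z hz => (hn z).trans hz
  have hAP : ApproxMat δ (fun a b => opRep h ℓ C χ (X a b)) := by
    refine ⟨fun a b => ?_, fun a b c => ?_, fun a b c d hbc => ?_, ?_⟩
    · rw [← map_star]
      congr 1
      exact Subtype.ext (hA.star_w a b)
    · rw [← map_mul, ← map_sub]
      exact key _ (hA.mul_w a b c)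
    · rw [← map_mul]
      exact key _ (hA.ne_w a b c d hbc)
    · rw [← map_sum, ← map_one (opRep h ℓ C χ), ← map_sub]
      refine key _ ?_
      have : ((∑ a, X a a - 1 : sliceAlg h ℓ C) : E) = ∑ a, x a a - 1 := by
        simp [X]
      rw [this]
      exact hA.one_w
  have := card_dvd_finrank hAP hδ0 hδ
  rwa [finrank_euclideanSpace, Fintype.card_coe, card_idx] at this

/-- Finite case: the size of a matrix tuple divides the product over finitely many sites. -/
theorem exists_dvd [Nontrivial E] (h : MUSys n e)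
    (hgen : (Algebra.adjoin ℂ {x | ∃ j a b, x = e j a b}).topologicalClosure = ⊤)
    {κ : Type} [Fintype κ] {w : κ → κ → E} (hw : MatTuple w) :
    ∃ T : Finset J, Fintype.card κ ∣ ∏ j ∈ T, n j := by
  classical
  have hm0 : (0 : ℝ) ≤ Fintype.card κ := Nat.cast_nonneg _
  set η : ℝ := 1 / ((Fintype.card κ + 4) * (40 * (Fintype.card κ + 1))) with hη
  have hη0 : 0 < η := by positivity
  have hη1 : η ≤ 1 := by
    rw [hη, div_le_one (by positivity)]
    nlinarith
  have hηδ : (Fintype.card κ + 4) * η * (40 * (Fintype.card κ + 1)) ≤ 1 := by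
    rw [hη]
    field_simp
    exact le_refl _
  have hx : ∀ i : κ × κ, ∃ T : Finset J, ∃ w' ∈ D e (T : Set J), ‖w' - w i.1 i.2‖ ≤ η := by
    intro i
    obtain ⟨T, w', hw', hwu⟩ := dense_D hgen (w i.1 i.2) hη0
    exact ⟨T, w', hw', by rw [norm_sub_rev]; exact hwu.le⟩
  choose Tx x hxD hxu using hx
  set T : Finset J := Finset.univ.biUnion Tx with hT
  set ℓ := T.toList with hℓ
  let C : StarSubalgebra ℂ E := StarSubalgebra.centralizer ℂ Set.univ
  have hCmem : ∀ z, z ∈ C ↔ ∀ g, g * z = z * g := by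
    intro z
    rw [StarSubalgebra.mem_centralizer_iff]
    exact ⟨fun hz g => (hz g trivial).1, fun hz g _ => ⟨hz g, hz _⟩⟩
  have hC : IsClosed (C : Set E) := Set.isClosed_centralizer _
  have hcomm : ∀ x ∈ C, ∀ y ∈ C, x * y = y * x := fun x _ y hy => (hCmem y).mp hy x
  have hD0 : ∀ w ∈ D e (∅ : Set J), w ∈ C := by
    intro w hw
    refine D_induction (e := e) (N := ∅) (p := fun w => w ∈ C) ?_ ?_ ?_ ?_ hw
    · intro j hj
      exact absurd hj (Set.notMem_empty j)
    · intro c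
      exact algebraMap_mem C c
    · exact fun x y hx hy => add_mem hx hy
    · exact fun x y hx hy => mul_mem hx hy
  have hsl : ∀ w ∈ D e (T : Set J), w ∈ sliceAlg h ℓ C := by
    intro w hw f hf g hg
    refine hD0 _ (Sl_mem_D h ℓ (Finset.nodup_toList T) (fun j _ => Set.notMem_empty j) ?_
      f g hf hg)
    refine D_mono ?_ hw
    intro j hj
    exact Or.inr (by simpa [hℓ] using hj)
  have hxS : ∀ i, x i ∈ sliceAlg h ℓ C := fun i => hsl _ (D_mono (by
    intro j hj
    rw [hT]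
    simp only [coe_biUnion, coe_univ, Set.mem_univ, Set.iUnion_true, 
      Set.mem_iUnion]
    exact ⟨i, hj⟩) (hxD i))
  let y : κ → κ → E := fun a b => (1 / 2 : ℂ) • (x (a, b) + star (x (b, a)))
  have hys : ∀ a b, star (y a b) = y b a := by
    intro a b
    simp only [y]
    rw [star_smul, star_add, star_star, add_comm]
    congr 1
    simp
  have hyw : ∀ a b, ‖y a b - w a b‖ ≤ η := by
    intro a b
    have e1 : y a b - w a b =
        (1 / 2 : ℂ) • ((x (a, b) - w a b) + star (x (b, a) - w b a)) := by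
      simp only [y]
      rw [star_sub, hw.star_w]
      have : w a b = (1 / 2 : ℂ) • (w a b + w a b) := by
        rw [← two_smul ℂ (w a b), smul_smul]
        norm_num
      nth_rewrite 1 [this]
      rw [← smul_sub]
      congr 1
      abel
    rw [e1, norm_smul]
    have h1 := hxu (a, b)
    have h2 := hxu (b, a)
    have h3 : ‖(x (a, b) - w a b) + star (x (b, a) - w b a)‖ ≤ η + η :=
      (norm_add_le _ _).trans (add_le_add h1 (by rw [norm_star]; exact h2))
    have h4 : ‖(1 / 2 : ℂ)‖ = 1 / 2 := by norm_num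
    rw [h4]
    linarith
  have hAP := approxMat_of_close hw hη0.le hη1 hys hyw
  have hd := transfer h ℓ C ⟨hC, hcomm⟩ (by positivity) hηδ y
    (fun a b => SMulMemClass.smul_mem _ (add_mem (hxS (a, b)) (star_mem (hxS (b, a))))) hAP
  have hprod : (ℓ.map n).prod = ∏ j ∈ T, n j := by
    rw [hℓ, Finset.prod_map_toList]
  exact ⟨T, hprod ▸ hd⟩

theorem padic_prod {J : Type*} {n : J → ℕ} {p : ℕ} [Fact p.Prime] (T : Finset J)
    (hT : ∀ j ∈ T, n j ≠ 0) :
    padicValNat p (∏ j ∈ T, n j) = ∑ j ∈ T, padicValNat p (n j) := by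
  classical
  induction T using Finset.induction_on with
  | empty => simp
  | insert a T ha ih =>
    rw [Finset.prod_insert ha, Finset.sum_insert ha, padicValNat.mul
      (hT a (Finset.mem_insert_self _ _))
      (Finset.prod_ne_zero_iff.mpr fun j hj => hT j (Finset.mem_insert_of_mem hj)),
      ih fun j hj => hT j (Finset.mem_insert_of_mem hj)]

/-- A commuting family of matrix tuples. -/
structure MatFamily {Λ E : Type*} [CStarAlgebra E] {κ : Type} [Fintype κ]
    (U : Λ → κ → κ → E) : Prop where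
  tuple : ∀ α, MatTuple (U α)
  comm : ∀ α β, α ≠ β → ∀ a b c d, U α a b * U β c d = U β c d * U α a b

theorem MatFamily.map {Λ A B : Type*} [CStarAlgebra A] [CStarAlgebra B] {κ : Type} [Fintype κ]
    {U : Λ → κ → κ → A} (h : MatFamily U) (φ : A →⋆ₐ[ℂ] B) :
    MatFamily (fun α a b => φ (U α a b)) := by
  refine ⟨fun α => ⟨fun a b => ?_, fun a b c => ?_, fun a b c d hbc => ?_, ?_⟩,
    fun α β hαβ a b c d => ?_⟩
  · rw [← map_star, (h.tuple α).star_w]
  · rw [← map_mul, (h.tuple α).mul_w]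
  · rw [← map_mul, (h.tuple α).ne_w _ _ _ _ hbc, map_zero]
  · rw [← map_sum, (h.tuple α).one_w, map_one]
  · rw [← map_mul, h.comm α β hαβ, map_mul]

/-- Divisibility of a product over finitely many sites by a power of the size. -/
theorem exists_pow_dvd [Nontrivial E] (h : MUSys n e)
    (hgen : (Algebra.adjoin ℂ {x | ∃ j a b, x = e j a b}).topologicalClosure = ⊤)
    {Λ : Type*} {κ : Type} [Fintype κ] {U : Λ → κ → κ → E} (hU : MatFamily U) (F : Finset Λ) :
    ∃ T : Finset J, Fintype.card κ ^ F.card ∣ ∏ j ∈ T, n j := by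
  obtain ⟨τ, hτ, v, hv, hcard, _⟩ := exists_prod (κ := fun _ : Λ => κ) hU.tuple
    (fun i j hij a b c d => hU.comm i j hij a b c d) F
  obtain ⟨T, hT⟩ := exists_dvd h hgen hv
  refine ⟨T, ?_⟩
  rw [hcard] at hT
  simpa using hT

theorem not_infinite_of_finite [Nontrivial E] (h : MUSys n e)
    (hgen : (Algebra.adjoin ℂ {x | ∃ j a b, x = e j a b}).topologicalClosure = ⊤)
    {Λ : Type*} [Infinite Λ] {κ : Type} [Fintype κ] {U : Λ → κ → κ → E} (hU : MatFamily U)
    {p : ℕ} (hp : p.Prime) (hpκ : p ∣ Fintype.card κ)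
    (hP : {j | p ∣ n j}.Finite) : False := by
  classical
  have : Fact p.Prime := ⟨hp⟩
  set W := ∑ j ∈ hP.toFinset, padicValNat p (n j) with hW
  obtain ⟨F, hF⟩ := Infinite.exists_subset_card_eq Λ (W + 1)
  obtain ⟨T, hT⟩ := exists_pow_dvd h hgen hU F
  have h1 : p ^ (W + 1) ∣ ∏ j ∈ T, n j := by
    refine dvd_trans ?_ hT
    rw [hF]
    exact pow_dvd_pow_of_dvd hpκ _
  have hne : ∏ j ∈ T, n j ≠ 0 := Finset.prod_ne_zero_iff.mpr fun j _ => (h.pos j).ne'
  have h2 := (padicValNat_dvd_iff_le (p := p) hne).mp h1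
  rw [padic_prod T fun j _ => (h.pos j).ne'] at h2
  have : ∑ j ∈ T, padicValNat p (n j) ≤ W := by
    rw [← Finset.sum_filter_add_sum_filter_not T (fun j => p ∣ n j)]
    have h0 : ∑ j ∈ T.filter (fun j => ¬ p ∣ n j), padicValNat p (n j) = 0 := by
      refine Finset.sum_eq_zero fun j hj => ?_
      exact padicValNat.eq_zero_of_not_dvd (Finset.mem_filter.mp hj).2
    rw [h0, add_zero]
    refine Finset.sum_le_sum_of_subset ?_
    intro j hj
    simpa using (Finset.mem_filter.mp hj).2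
  omega

/-- **Lower bound.** An infinite commuting family of matrix tuples of size divisible by `p` is at
most as large as the set of sites of size divisible by `p`. -/
theorem mk_le [Nontrivial E] (h : MUSys n e)
    (hgen : (Algebra.adjoin ℂ {x | ∃ j a b, x = e j a b}).topologicalClosure = ⊤)
    {Λ : Type u} [Infinite Λ] {κ : Type} [Fintype κ] {U : Λ → κ → κ → E} (hU : MatFamily U)
    {p : ℕ} (hp : p.Prime) (hpκ : p ∣ Fintype.card κ) : #Λ ≤ #{j | p ∣ n j} := by
  rcases lt_or_ge (#{j | p ∣ n j}) ℵ₀ with hP | hP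
  · exact absurd (not_infinite_of_finite h hgen hU hp hpκ
      (Cardinal.lt_aleph0_iff_set_finite.mp hP)) id
  by_contra hcon
  push Not at hcon
  have hm0 : (0 : ℝ) ≤ Fintype.card κ := Nat.cast_nonneg _
  set η : ℝ := 1 / ((Fintype.card κ + 4) * (40 * (Fintype.card κ + 1))) with hη
  have hη0 : 0 < η := by positivity
  have hη1 : η ≤ 1 := by
    rw [hη, div_le_one (by positivity)]
    nlinarith
  have hηδ : (Fintype.card κ + 4) * η * (40 * (Fintype.card κ + 1)) ≤ 1 := by
    rw [hη]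
    field_simp
    exact le_refl _
  obtain ⟨α, L, hL, hLP, Z, hZ1, hZ2, C, hC, hZ3⟩ := reflect h hgen
    (ι := κ × κ) Prod.swap (fun α i => U α i.1 i.2) (fun α i => (hU.tuple α).norm_le _ _)
    (fun α i => (hU.tuple α).star_w _ _) (fun α β hαβ i k => hU.comm α β hαβ _ _ _ _)
    {j | p ∣ n j} hP hcon hη0
  have hAP := approxMat_of_close (hU.tuple α) (x := fun a b => Z (a, b)) hη0.le hη1
    (fun a b => hZ2 (a, b)) (fun a b => hZ1 (a, b))
  have hd := transfer h L C hC (by positivity) hηδ (fun a b => Z (a, b))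
    (fun a b => hZ3 (a, b)) hAP
  have h1 := dvd_trans hpκ hd
  obtain ⟨m, hm, hpm⟩ := (Prime.dvd_prod_iff hp.prime).mp h1
  obtain ⟨j, hj, rfl⟩ := List.mem_map.mp hm
  exact hLP j hj hpm

end Pool.Agent.V11109.UHFp
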