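import Pool.Agent.Helper741.UHF.Main

/-! Systems of matrix units, exact and approximate, and the dimension count. -/

open Module Finset

universe u

namespace Pool.Agent.V11109.UHFp

open Pool.Agent.Helper741.UHF

/-- A unital system of matrix units indexed by `κ`. -/
structure MatTuple {A : Type*} [CStarAlgebra A] {κ : Type*} [Fintype κ] (w : κ → κ → A) :
    Prop where
  star_w : ∀ a b, star (w a b) = w b a
  mul_w : ∀ a b c, w a b * w b c = w a c
  ne_w : ∀ a b c d, b ≠ c → w a b * w c d = 0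
  one_w : ∑ a, w a a = 1

/-- An approximate unital system of matrix units indexed by `κ`. -/
structure ApproxMat {A : Type*} [CStarAlgebra A] {κ : Type*} [Fintype κ] (δ : ℝ)
    (w : κ → κ → A) : Prop where
  star_w : ∀ a b, star (w a b) = w b a
  mul_w : ∀ a b c, ‖w a b * w b c - w a c‖ ≤ δ
  ne_w : ∀ a b c d, b ≠ c → ‖w a b * w c d‖ ≤ δ
  one_w : ‖∑ a, w a a - 1‖ ≤ δ

section cstar

variable {A : Type*} [CStarAlgebra A] {κ : Type*} [Fintype κ] {w : κ → κ → A} {δ : ℝ}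

theorem ApproxMat.norm_diag (h : ApproxMat δ w) (hδ0 : 0 ≤ δ) (a : κ) : ‖w a a‖ ≤ 1 + δ := by
  have h1 : ‖w a a‖ * ‖w a a‖ ≤ ‖w a a‖ + δ := by
    have e1 : ‖w a a‖ * ‖w a a‖ = ‖w a a * w a a‖ := by
      rw [← CStarRing.norm_star_mul_self, h.star_w]
    rw [e1]
    calc ‖w a a * w a a‖ = ‖w a a + (w a a * w a a - w a a)‖ := by congr 1; abel
      _ ≤ ‖w a a‖ + ‖w a a * w a a - w a a‖ := norm_add_le _ _
      _ ≤ _ := by
          have := h.mul_w a a a
          linarith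
  by_contra hcon
  push Not at hcon
  nlinarith [norm_nonneg (w a a)]

theorem ApproxMat.norm_le (h : ApproxMat δ w) (hδ0 : 0 ≤ δ) (a b : κ) : ‖w a b‖ ≤ 1 + δ := by
  have h1 : ‖w a b‖ * ‖w a b‖ ≤ 1 + 2 * δ := by
    have e1 : ‖w a b‖ * ‖w a b‖ = ‖w b a * w a b‖ := by
      rw [← CStarRing.norm_star_mul_self, h.star_w]
    rw [e1]
    calc ‖w b a * w a b‖ = ‖w b b + (w b a * w a b - w b b)‖ := by congr 1; abel
      _ ≤ ‖w b b‖ + ‖w b a * w a b - w b b‖ := norm_add_le _ _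
      _ ≤ _ := by
          have := h.mul_w b a b
          have := h.norm_diag hδ0 b
          linarith
  by_contra hcon
  push Not at hcon
  nlinarith [norm_nonneg (w a b)]

theorem ApproxMat.exists_proj (h : ApproxMat δ w) (hδ0 : 0 ≤ δ) (hδ : δ ≤ 1 / 40) (a : κ) :
    ∃ P : A, IsStarProjection P ∧ ‖P - w a a‖ ≤ 2 * δ := by
  have hs : IsSelfAdjoint (w a a + w a a - 1) := by
    rw [IsSelfAdjoint, star_sub, star_add, h.star_w, star_one]
  have h1 : ‖(w a a + w a a - 1) * (w a a + w a a - 1) - 1‖ ≤ 4 * δ := by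
    have e1 : (w a a + w a a - 1) * (w a a + w a a - 1) - 1 =
        (w a a * w a a - w a a) + (w a a * w a a - w a a) + (w a a * w a a - w a a) +
          (w a a * w a a - w a a) := by noncomm_ring
    rw [e1]
    have := h.mul_w a a a
    calc _ ≤ ‖(w a a * w a a - w a a)‖ + ‖(w a a * w a a - w a a)‖ + ‖(w a a * w a a - w a a)‖ +
          ‖(w a a * w a a - w a a)‖ := norm_add₄_le
      _ ≤ _ := by linarith
  obtain ⟨P, hP, hPn⟩ := exists_projection hs (by positivity) (by linarith) h1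
  refine ⟨P, hP, ?_⟩
  have e2 : (1 / 2 : ℝ) • (1 + (w a a + w a a - 1)) = w a a := by
    have : (1 : A) + (w a a + w a a - 1) = (2 : ℝ) • w a a := by
      rw [two_smul]
      abel
    rw [this, smul_smul]
    norm_num
  rw [e2] at hPn
  linarith

end cstar

section hilbert

variable {H : Type u} [NormedAddCommGroup H] [InnerProductSpace ℂ H] [FiniteDimensional ℂ H]
  {κ : Type*} [Fintype κ] {w : κ → κ → (H →L[ℂ] H)} {δ : ℝ}

theorem finrank_range_le (h : ApproxMat δ w) (hδ0 : 0 ≤ δ) (hδ : δ ≤ 1 / 40) (a b : κ)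
    {P Q : H →L[ℂ] H} (hP : IsStarProjection P) 
    (hPn : ‖P - w a a‖ ≤ 2 * δ) (hQn : ‖Q - w b b‖ ≤ 2 * δ) :
    finrank ℂ (LinearMap.range (P : H →ₗ[ℂ] H)) ≤ finrank ℂ (LinearMap.range (Q : H →ₗ[ℂ] H)) := by
  let φ : LinearMap.range (P : H →ₗ[ℂ] H) →ₗ[ℂ] LinearMap.range (Q : H →ₗ[ℂ] H) :=
    (((Q : H →ₗ[ℂ] H).rangeRestrict).comp (w b a : H →ₗ[ℂ] H)).comp
      (LinearMap.range (P : H →ₗ[ℂ] H)).subtype
  refine LinearMap.finrank_le_finrank_of_injective (f := φ) ?_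
  rw [← LinearMap.ker_eq_bot, LinearMap.ker_eq_bot']
  rintro ⟨ξ, η, rfl⟩ hξ
  have h0 : Q (w b a (P η)) = 0 := congrArg Subtype.val hξ
  have hPP : P (P η) = P η := by
    have := congrArg (fun T : H →L[ℂ] H => T η) hP.isIdempotentElem.eq
    simpa using this
  set ζ := P η with hζ
  -- lower bound
  have h1 : ‖ζ‖ ≤ ‖w a b (w b a ζ)‖ + (3 * δ) * ‖ζ‖ := by
    have e1 : ζ = w a b (w b a ζ) - (w a b * w b a - w a a) ζ + (P - w a a) ζ := by
      simp [hPP]
    calc ‖ζ‖ = ‖w a b (w b a ζ) - (w a b * w b a - w a a) ζ + (P - w a a) ζ‖ := by rw [← e1]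
      _ ≤ ‖w a b (w b a ζ) - (w a b * w b a - w a a) ζ‖ + ‖(P - w a a) ζ‖ := norm_add_le _ _
      _ ≤ ‖w a b (w b a ζ)‖ + ‖(w a b * w b a - w a a) ζ‖ + ‖(P - w a a) ζ‖ := by
          gcongr
          exact norm_sub_le _ _
      _ ≤ ‖w a b (w b a ζ)‖ + δ * ‖ζ‖ + (2 * δ) * ‖ζ‖ := by
          gcongr
          · exact ((w a b * w b a - w a a).le_opNorm ζ).trans (by
              gcongr
              exact h.mul_w a b a)
          · exact ((P - w a a).le_opNorm ζ).trans (by gcongr)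
      _ = _ := by ring
  have h2 : ‖w a b (w b a ζ)‖ ≤ (1 + δ) * ‖w b a ζ‖ :=
    ((w a b).le_opNorm _).trans (by gcongr; exact h.norm_le hδ0 a b)
  -- upper bound
  have h3 : ‖w b a ζ‖ ≤ δ * ‖ζ‖ + (2 * δ) * ‖w b a ζ‖ := by
    have e1 : w b a ζ = -((w b b * w b a - w b a) ζ) - (Q - w b b) (w b a ζ) := by
      simp [h0]
    calc ‖w b a ζ‖ = ‖-((w b b * w b a - w b a) ζ) - (Q - w b b) (w b a ζ)‖ := by rw [← e1]
      _ ≤ ‖-((w b b * w b a - w b a) ζ)‖ + ‖(Q - w b b) (w b a ζ)‖ := norm_sub_le _ _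
      _ ≤ δ * ‖ζ‖ + (2 * δ) * ‖w b a ζ‖ := by
          rw [norm_neg]
          gcongr
          · exact ((w b b * w b a - w b a).le_opNorm ζ).trans (by
              gcongr
              exact h.mul_w b b a)
          · exact ((Q - w b b).le_opNorm _).trans (by gcongr)
  have h5 : ‖ζ‖ = 0 := by
    have hz := norm_nonneg ζ
    have hz' := norm_nonneg (w b a ζ)
    nlinarith
  have h6 : ζ = 0 := norm_eq_zero.mp h5
  ext
  exact h6

theorem card_dvd_finrank (h : ApproxMat δ w) (hδ0 : 0 ≤ δ)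
    (hδ : δ * (40 * (Fintype.card κ + 1)) ≤ 1) : Fintype.card κ ∣ finrank ℂ H := by
  classical
  have hm0 : (0 : ℝ) ≤ Fintype.card κ := Nat.cast_nonneg _
  have hδ' : δ ≤ 1 / 40 := by nlinarith
  choose P hP hPn using fun a => h.exists_proj hδ0 hδ' a
  have hrank : ∀ a b, finrank ℂ (LinearMap.range (P a : H →ₗ[ℂ] H)) =
      finrank ℂ (LinearMap.range (P b : H →ₗ[ℂ] H)) := fun a b =>
    le_antisymm (finrank_range_le h hδ0 hδ' a b (hP a) (hPn a) (hPn b))
      (finrank_range_le h hδ0 hδ' b a (hP b) (hPn b) (hPn a))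
  have hP1 : ∀ a, ‖P a‖ ≤ 1 := fun a => norm_proj_le_one (hP a)
  have hPP : ∀ a b, a ≠ b → ‖P a * P b‖ ≤ 6 * δ := by
    intro a b hab
    have e1 : P a * P b = (P a - w a a) * P b + w a a * (P b - w b b) + w a a * w b b := by
      noncomm_ring
    rw [e1]
    have s1 : ‖(P a - w a a) * P b‖ ≤ 2 * δ * 1 :=
      (norm_mul_le _ _).trans (mul_le_mul (hPn a) (hP1 b) (norm_nonneg _) (by positivity))
    have s2 : ‖w a a * (P b - w b b)‖ ≤ (1 + δ) * (2 * δ) :=
      (norm_mul_le _ _).trans (mul_le_mul (h.norm_diag hδ0 a) (hPn b) (norm_nonneg _)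
        (by positivity))
    have s3 := h.ne_w a a b b hab
    calc _ ≤ ‖(P a - w a a) * P b‖ + ‖w a a * (P b - w b b)‖ + ‖w a a * w b b‖ := norm_add₃_le
      _ ≤ _ := by nlinarith
  have hsum : ‖∑ a, P a - 1‖ ≤ (2 * Fintype.card κ + 1) * δ := by
    have e1 : ∑ a, P a - 1 = ∑ a, (P a - w a a) + (∑ a, w a a - 1) := by
      rw [Finset.sum_sub_distrib]
      abel
    rw [e1]
    calc _ ≤ ‖∑ a, (P a - w a a)‖ + ‖∑ a, w a a - 1‖ := norm_add_le _ _
      _ ≤ ∑ _a : κ, (2 * δ) + δ := by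
          gcongr
          · exact (norm_sum_le _ _).trans (Finset.sum_le_sum fun a _ => hPn a)
          · exact h.one_w
      _ = _ := by
          rw [Finset.sum_const, Finset.card_univ, nsmul_eq_mul]
          ring
  -- the sum map
  let φ : (∀ a, LinearMap.range (P a : H →ₗ[ℂ] H)) →ₗ[ℂ] H :=
    ∑ a, (LinearMap.range (P a : H →ₗ[ℂ] H)).subtype.comp (LinearMap.proj a)
  have hφ : ∀ x, φ x = ∑ a, (x a : H) := by
    intro x
    simp [φ, LinearMap.sum_apply]
  have hfix : ∀ a (x : LinearMap.range (P a : H →ₗ[ℂ] H)), P a (x : H) = x := by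
    rintro a ⟨x, y, rfl⟩
    have := congrArg (fun T : H →L[ℂ] H => T y) (hP a).isIdempotentElem.eq
    simpa using this
  have hinj : Function.Injective φ := by
    rw [← LinearMap.ker_eq_bot, LinearMap.ker_eq_bot']
    intro x hx
    rw [hφ] at hx
    have h1 : ∀ a, ‖(x a : H)‖ ≤ ∑ b, (6 * δ) * ‖(x b : H)‖ := by
      intro a
      have e1 : (x a : H) = -∑ b ∈ Finset.univ.erase a, P a (x b : H) := by
        have e2 : P a (∑ b, (x b : H)) = 0 := by rw [hx, map_zero]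
        rw [map_sum, ← Finset.add_sum_erase _ _ (Finset.mem_univ a), hfix] at e2
        exact eq_neg_of_add_eq_zero_left e2
      rw [e1, norm_neg]
      calc _ ≤ ∑ b ∈ Finset.univ.erase a, ‖P a (x b : H)‖ := norm_sum_le _ _
        _ ≤ ∑ b ∈ Finset.univ.erase a, (6 * δ) * ‖(x b : H)‖ := by
            refine Finset.sum_le_sum fun b hb => ?_
            have hne : a ≠ b := (Finset.ne_of_mem_erase hb).symm
            have e3 : P a (x b : H) = (P a * P b) (x b : H) := by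
              rw [mul_apply_eq_comp, hfix]
            rw [e3]
            exact ((P a * P b).le_opNorm _).trans (by gcongr; exact hPP a b hne)
        _ ≤ _ := Finset.sum_le_sum_of_subset_of_nonneg (Finset.erase_subset _ _)
            fun _ _ _ => by positivity
    have h2 : ∑ a, ‖(x a : H)‖ ≤ (Fintype.card κ : ℝ) * ((6 * δ) * ∑ b, ‖(x b : H)‖) := by
      calc _ ≤ ∑ _a : κ, ∑ b, (6 * δ) * ‖(x b : H)‖ := Finset.sum_le_sum fun a _ => h1 a
        _ = _ := by
            rw [Finset.sum_const, Finset.card_univ, nsmul_eq_mul, ← Finset.mul_sum]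
    have h3 : ∑ a, ‖(x a : H)‖ = 0 := by
      have h0 : 0 ≤ ∑ a, ‖(x a : H)‖ := Finset.sum_nonneg fun _ _ => norm_nonneg _
      have h4 : (Fintype.card κ : ℝ) * (6 * δ) ≤ 1 / 2 := by nlinarith
      nlinarith
    funext a
    have h4 := (Finset.sum_eq_zero_iff_of_nonneg (fun _ _ => norm_nonneg _)).mp h3 a
      (Finset.mem_univ a)
    exact Subtype.ext (norm_eq_zero.mp h4)
  have hsurj : Function.Surjective φ := by
    have hT : Function.Injective ((∑ a, P a : H →L[ℂ] H) : H →ₗ[ℂ] H) := by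
      rw [← LinearMap.ker_eq_bot, LinearMap.ker_eq_bot']
      intro η hη
      have hη' : (∑ a, P a) η = 0 := hη
      have e1 : η = -((∑ a, P a - 1) η) := by
        rw [sub_apply, hη', one_apply_eq_self]
        simp
      have e2 : ‖η‖ ≤ (2 * Fintype.card κ + 1) * δ * ‖η‖ := by
        calc ‖η‖ = ‖(∑ a, P a - 1) η‖ := by
              conv_lhs => rw [e1, norm_neg]
          _ ≤ _ := ((∑ a, P a - 1).le_opNorm η).trans (by gcongr)
      have e3 : (2 * (Fintype.card κ : ℝ) + 1) * δ ≤ 1 / 2 := by nlinarith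
      have e4 : ‖η‖ = 0 := by nlinarith [norm_nonneg η]
      exact norm_eq_zero.mp e4
    intro ξ
    obtain ⟨η, hη⟩ := (LinearMap.injective_iff_surjective.mp hT) ξ
    refine ⟨fun a => ⟨P a η, ⟨η, rfl⟩⟩, ?_⟩
    rw [hφ, ← hη]
    simp
  have hfr := (LinearEquiv.ofBijective φ ⟨hinj, hsurj⟩).finrank_eq
  rw [finrank_pi_fintype] at hfr
  rcases isEmpty_or_nonempty κ with hκ | ⟨⟨a₀⟩⟩
  · rw [← hfr]
    simp
  · rw [← hfr, Finset.sum_congr rfl fun a _ => hrank a a₀, Finset.sum_const, Finset.card_univ,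
      smul_eq_mul]
    exact dvd_mul_right _ _

end hilbert

end Pool.Agent.V11109.UHFp
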