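import Pool.Agent.V11109.UHFp.Lower
import Pool.Agent.Helper741.UHF.Exist

/-! Decomposition into tensor factors of prime size, and the embedding criterion. -/

open Finset Cardinal

universe u

namespace Pool.Agent.V11109.UHFp

open Pool.Agent.Helper741.UHF

section tuples

variable {J E : Type*} [CStarAlgebra E] {n : J → ℕ}

/-- the `ℕ`-indexed matrix units of a family of tuples -/
noncomputable def ofFin (u : ∀ j, Fin (n j) → Fin (n j) → E) (j : J) (a b : ℕ) : E :=
  if h : a < n j ∧ b < n j then u j ⟨a, h.1⟩ ⟨b, h.2⟩ else 0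

theorem ofFin_fin (u : ∀ j, Fin (n j) → Fin (n j) → E) (j : J) (a b : Fin (n j)) :
    ofFin u j a b = u j a b := by
  unfold ofFin
  rw [dif_pos ⟨a.2, b.2⟩]

theorem musys_ofFin (hn : ∀ j, 0 < n j) {u : ∀ j, Fin (n j) → Fin (n j) → E}
    (hu : ∀ j, MatTuple (u j))
    (hc : ∀ i j, i ≠ j → ∀ a b c d, u i a b * u j c d = u j c d * u i a b) :
    MUSys n (ofFin u) := by
  refine ⟨hn, fun j a b ha => ?_, fun j a b c hb => ?_, fun j a b c d hbc => ?_,
    fun j a b => ?_, fun j => ?_, fun i j hij a b c d => ?_⟩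
  · unfold ofFin
    rw [dif_neg (fun h => absurd h.1 (not_lt.mpr ha))]
  · unfold ofFin
    by_cases ha : a < n j
    · by_cases hc : c < n j
      · rw [dif_pos ⟨ha, hb⟩, dif_pos ⟨hb, hc⟩, dif_pos ⟨ha, hc⟩, (hu j).mul_w]
      · rw [dif_neg (show ¬ (b < n j ∧ c < n j) from fun h => hc h.2),
          dif_neg (show ¬ (a < n j ∧ c < n j) from fun h => hc h.2), mul_zero]
    · rw [dif_neg (show ¬ (a < n j ∧ b < n j) from fun h => ha h.1), zero_mul,
        dif_neg (show ¬ (a < n j ∧ c < n j) from fun h => ha h.1)]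
  · unfold ofFin
    split_ifs with h1 h2
    · exact (hu j).ne_w _ _ _ _ fun h => hbc (congrArg Fin.val h)
    · rw [mul_zero]
    · rw [zero_mul]
    · rw [zero_mul]
  · unfold ofFin
    by_cases h : a < n j ∧ b < n j
    · rw [dif_pos h, dif_pos ⟨h.2, h.1⟩, (hu j).star_w]
    · rw [dif_neg h, dif_neg (fun h' => h ⟨h'.2, h'.1⟩), star_zero]
  · rw [Finset.sum_range]
    have : ∀ a : Fin (n j), ofFin u j a a = u j a a := fun a => ofFin_fin u j a a
    rw [Finset.sum_congr rfl fun a _ => this a, (hu j).one_w]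
  · unfold ofFin
    split_ifs
    · exact hc i j hij _ _ _ _
    · exact Commute.zero_right _
    · exact Commute.zero_left _
    · exact Commute.zero_left _

theorem MatTuple.of_musys {e : J → ℕ → ℕ → E} (h : MUSys n e) (j : J) {p : ℕ} (hp : n j = p) :
    MatTuple (fun a b : Fin p => e j a b) := by
  subst hp
  refine ⟨fun a b => h.star_e _ _ _, fun a b c => h.mul_same _ _ _ _ b.2,
    fun a b c d hbc => h.mul_ne _ _ _ _ _ fun hh => hbc (Fin.ext hh), ?_⟩
  rw [← h.one j, Finset.sum_range]

/-- Splitting a matrix tuple along a factorisation of its size. -/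
theorem exists_split {S : Type*} (q : S → ℕ) (F : Finset S) :
    ∀ (κ : Type) [Fintype κ] (w : κ → κ → E), MatTuple w → Fintype.card κ = ∏ s ∈ F, q s →
      ∃ u : ∀ s, Fin (q s) → Fin (q s) → E, (∀ s ∈ F, MatTuple (u s)) ∧
        (∀ s ∈ F, ∀ t ∈ F, s ≠ t → ∀ a b c d, u s a b * u t c d = u t c d * u s a b) ∧
        (∀ x, (∀ a b, w a b * x = x * w a b) → ∀ s ∈ F, ∀ a b, u s a b * x = x * u s a b) ∧
        ∀ B : Subalgebra ℂ E, (∀ s ∈ F, ∀ a b, u s a b ∈ B) → ∀ a b, w a b ∈ B := by
  classical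
  induction F using Finset.induction_on with
  | empty =>
    intro κ _ w hw hcard
    rw [Finset.prod_empty] at hcard
    refine ⟨fun _ _ _ => 0, by simp, by simp, by simp, fun B _ a b => ?_⟩
    have hsub : Subsingleton κ := Fintype.card_le_one_iff_subsingleton.mp hcard.le
    have h1 : ∑ c, w c c = w a b := by
      rw [Fintype.sum_subsingleton _ a, Subsingleton.elim b a]
    rw [← h1, hw.one_w]
    exact one_mem B
  | insert s₀ F hs₀ ih =>
    intro κ _ w hw hcard
    rw [Finset.prod_insert hs₀] at hcard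
    let τ := Fin (∏ s ∈ F, q s)
    have hc : Fintype.card (Fin (q s₀) × τ) = Fintype.card κ := by
      rw [hcard, Fintype.card_prod, Fintype.card_fin, Fintype.card_fin]
    let σ : Fin (q s₀) × τ ≃ κ := Fintype.equivOfCardEq hc
    set W : Fin (q s₀) × τ → Fin (q s₀) × τ → E := fun a b => w (σ a) (σ b) with hW
    have hWt : MatTuple W := hw.reindex σ
    set W' : τ × Fin (q s₀) → τ × Fin (q s₀) → E := fun a b => W a.swap b.swap with hW'
    have hWt' : MatTuple W' := hWt.reindex (Equiv.prodComm _ _)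
    set u₀ : Fin (q s₀) → Fin (q s₀) → E := fun a b => ∑ c, W (a, c) (b, c) with hu₀
    have hu₀t : MatTuple u₀ := hWt.amplify
    set v : τ → τ → E := fun a b => ∑ c, W' (a, c) (b, c) with hv
    have hvt : MatTuple v := hWt'.amplify
    have huv : ∀ a b c d, u₀ a b * v c d = W (a, c) (b, d) := by
      intro a b c d
      simp only [hu₀, hv, hW', Prod.swap]
      rw [Finset.sum_mul, Finset.sum_eq_single c]
      · rw [Finset.mul_sum, Finset.sum_eq_single b]
        · exact hWt.mul_w _ _ _
        · intro y _ hy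
          exact hWt.ne_w _ _ _ _ fun h => hy (Prod.ext_iff.mp h).1.symm
        · intro hh
          exact absurd (Finset.mem_univ _) hh
      · intro x _ hx
        rw [Finset.mul_sum]
        exact Finset.sum_eq_zero fun y _ => hWt.ne_w _ _ _ _ fun h =>
          hx (Prod.ext_iff.mp h).2
      · intro hh
        exact absurd (Finset.mem_univ _) hh
    have hvu : ∀ a b c d, v c d * u₀ a b = W (a, c) (b, d) := by
      intro a b c d
      simp only [hu₀, hv, hW', Prod.swap]
      rw [Finset.sum_mul, Finset.sum_eq_single a]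
      · rw [Finset.mul_sum, Finset.sum_eq_single d]
        · exact hWt.mul_w _ _ _
        · intro y _ hy
          exact hWt.ne_w _ _ _ _ fun h => hy (Prod.ext_iff.mp h).2.symm
        · intro hh
          exact absurd (Finset.mem_univ _) hh
      · intro x _ hx
        rw [Finset.mul_sum]
        exact Finset.sum_eq_zero fun y _ => hWt.ne_w _ _ _ _ fun h =>
          hx (Prod.ext_iff.mp h).1
      · intro hh
        exact absurd (Finset.mem_univ _) hh
    obtain ⟨u, hu1, hu2, hu3, hu4⟩ := ih τ v hvt (by simp [τ])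
    have hne : ∀ s ∈ F, s ≠ s₀ := fun s hs h => hs₀ (h ▸ hs)
    let U : ∀ s, Fin (q s) → Fin (q s) → E := Function.update u s₀ u₀
    have hU0 : U s₀ = u₀ := Function.update_self _ _ _
    have hU1 : ∀ s ∈ F, U s = u s := fun s hs => Function.update_of_ne (hne s hs) _ _
    have hWx : ∀ x, (∀ a b, w a b * x = x * w a b) → ∀ a b, W a b * x = x * W a b :=
      fun x hx a b => hx _ _
    have hu₀x : ∀ x, (∀ a b, w a b * x = x * w a b) → ∀ a b, u₀ a b * x = x * u₀ a b := by
      intro x hx a b
      simp only [hu₀]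
      rw [Finset.sum_mul, Finset.mul_sum]
      exact Finset.sum_congr rfl fun c _ => hWx x hx _ _
    have hvx : ∀ x, (∀ a b, w a b * x = x * w a b) → ∀ a b, v a b * x = x * v a b := by
      intro x hx a b
      simp only [hv, hW']
      rw [Finset.sum_mul, Finset.mul_sum]
      exact Finset.sum_congr rfl fun c _ => hWx x hx _ _
    have h0c : ∀ s ∈ F, ∀ a b c d, u s a b * u₀ c d = u₀ c d * u s a b := by
      intro s hs a b c d
      exact hu3 (u₀ c d) (fun a' b' => by rw [huv, hvu]) s hs a b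
    refine ⟨U, ?_, ?_, ?_, ?_⟩
    · intro s hs
      rcases Finset.mem_insert.mp hs with rfl | hs
      · rw [hU0]
        exact hu₀t
      · rw [hU1 s hs]
        exact hu1 s hs
    · intro s hs t ht hst a b c d
      rcases Finset.mem_insert.mp hs with hs0 | hsF
      · rcases Finset.mem_insert.mp ht with ht0 | htF
        · exact absurd (hs0.trans ht0.symm) hst
        · subst hs0
          rw [hU0, hU1 t htF]
          exact (h0c t htF c d a b).symm
      · rcases Finset.mem_insert.mp ht with ht0 | htF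
        · subst ht0
          rw [hU0, hU1 s hsF]
          exact h0c s hsF a b c d
        · rw [hU1 s hsF, hU1 t htF]
          exact hu2 s hsF t htF hst a b c d
    · intro x hx s hs a b
      rcases Finset.mem_insert.mp hs with rfl | hs
      · rw [hU0]
        exact hu₀x x hx a b
      · rw [hU1 s hs]
        exact hu3 x (hvx x hx) s hs a b
    · intro B hB a b
      have h1 : ∀ a b, u₀ a b ∈ B := by
        intro a b
        have := hB s₀ (Finset.mem_insert_self _ _) a b
        rwa [hU0] at this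
      have h2 : ∀ a b, v a b ∈ B := hu4 B fun s hs a b => by
        have := hB s (Finset.mem_insert_of_mem hs) a b
        rwa [hU1 s hs] at this
      have h3 : w a b = W (σ.symm a) (σ.symm b) := by simp [hW]
      rw [h3, ← huv]
      exact mul_mem (h1 _ _) (h2 _ _)

end tuples

/-- index set of all prime factors (with multiplicity) -/
abbrev Tot {J : Type u} (n : J → ℕ) : Type u := Σ j, Fin (n j).primeFactorsList.length

/-- the prime factor at an index -/
def prt {J : Type u} (n : J → ℕ) (x : Tot n) : ℕ := (n x.1).primeFactorsList.get x.2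

theorem prt_prime {J : Type u} (n : J → ℕ) (x : Tot n) : (prt n x).Prime :=
  Nat.prime_of_mem_primeFactorsList (List.get_mem _ _)

theorem prt_dvd {J : Type u} (n : J → ℕ) (x : Tot n) : prt n x ∣ n x.1 :=
  Nat.dvd_of_mem_primeFactorsList (List.get_mem _ _)

/-- Decomposition into prime sites. -/
theorem exists_prime_musys {J E : Type u} [CStarAlgebra E] {n : J → ℕ} {e : J → ℕ → ℕ → E}
    (h : MUSys n e) :
    ∃ e' : Tot n → ℕ → ℕ → E, MUSys (prt n) e' ∧
      ∀ j a b, e j a b ∈ Algebra.adjoin ℂ {x | ∃ t a b, x = e' t a b} := by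
  classical
  have hprod : ∀ j, Fintype.card (Fin (n j)) =
      ∏ s : Fin (n j).primeFactorsList.length, prt n ⟨j, s⟩ := by
    intro j
    rw [Fintype.card_fin]
    have h1 := Nat.prod_primeFactorsList (h.pos j).ne'
    have h2 : ∏ s : Fin (n j).primeFactorsList.length, prt n ⟨j, s⟩ =
        (n j).primeFactorsList.prod := by
      rw [← Fin.prod_univ_getElem]
      rfl
    rw [h2, h1]
  have hsp := fun j => exists_split (fun s : Fin (n j).primeFactorsList.length => prt n ⟨j, s⟩)
    Finset.univ (Fin (n j)) (fun a b => e j a b) (MatTuple.of_musys h j rfl) (hprod j)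
  choose u hu1 hu2 hu3 hu4 using hsp
  let U : ∀ x : Tot n, Fin (prt n x) → Fin (prt n x) → E := fun x => u x.1 x.2
  have hUm : MUSys (prt n) (ofFin U) := by
    refine musys_ofFin (fun x => (prt_prime n x).pos) (fun x => hu1 x.1 x.2 (Finset.mem_univ _)) ?_
    rintro ⟨i, s⟩ ⟨j, t⟩ hne a b c d
    by_cases hij : i = j
    · subst hij
      exact hu2 i s (Finset.mem_univ _) t (Finset.mem_univ _) (fun hst => hne (by rw [hst])) a b c d
    · refine hu3 i (u j t c d) (fun a' b' => ?_) s (Finset.mem_univ _) a b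
      refine (hu3 j (e i a' b') (fun c' d' => ?_) t (Finset.mem_univ _) c d).symm
      exact (h.comm j i (Ne.symm hij) _ _ _ _).eq
  refine ⟨ofFin U, hUm, ?_⟩
  intro j a b
  by_cases hab : a < n j ∧ b < n j
  · refine hu4 j _ ?_ ⟨a, hab.1⟩ ⟨b, hab.2⟩
    intro s _ c d
    refine Algebra.subset_adjoin ⟨⟨j, s⟩, c, d, ?_⟩
    exact (ofFin_fin U ⟨j, s⟩ c d).symm
  · have : e j a b = 0 := by
      rw [not_and_or, not_lt, not_lt] at hab
      rcases hab with hh | hh
      · exact h.zero_left j a b hh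
      · exact h.zero_right j a b hh
    rw [this]
    exact zero_mem _

theorem card_get_eq_count {α : Type*} [DecidableEq α] (l : List α) (a : α) :
    Fintype.card {i : Fin l.length // l.get i = a} = l.count a := by
  rw [Fintype.card_subtype]
  have := Fin.card_filter_univ_eq_vector_get_eq_count a (⟨l, rfl⟩ : List.Vector α l.length)
  simpa [List.Vector.get, eq_comm] using this

/-- the fibre over `p` has the size of the total `p`-adic weight -/
theorem mk_fiber {J : Type u} (n : J → ℕ) {p : ℕ} (hp : p.Prime) :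
    #{x : Tot n // prt n x = p} = #(Σ j, Fin (padicValNat p (n j))) := by
  have e1 : {x : Tot n // prt n x = p} ≃
      Σ j, {s : Fin (n j).primeFactorsList.length // (n j).primeFactorsList.get s = p} :=
    { toFun := fun x => ⟨x.1.1, ⟨x.1.2, x.2⟩⟩
      invFun := fun y => ⟨⟨y.1, y.2.1⟩, y.2.2⟩
      left_inv := fun _ => rfl
      right_inv := fun _ => rfl }
  refine mk_congr (e1.trans (Equiv.sigmaCongrRight fun j => Fintype.equivOfCardEq ?_))
  rw [card_get_eq_count, Fintype.card_fin, ← Nat.factorization_def _ hp,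
    Nat.primeFactorsList_count_eq]

theorem exists_inj_of_fiber {X Y ι : Type*} (a : X → ι) (b : Y → ι)
    (g : ∀ x : X, {x' // a x' = a x} ↪ {y // b y = a x}) :
    ∃ f : X → Y, Function.Injective f ∧ ∀ x, b (f x) = a x := by
  classical
  let G : ∀ i, (∃ x, a x = i) → Nonempty ({x' // a x' = i} ↪ {y // b y = i}) := by
    rintro i ⟨x, rfl⟩
    exact ⟨g x⟩
  let g' : ∀ i, (∃ x, a x = i) → ({x' // a x' = i} ↪ {y // b y = i}) := fun i h =>
    Classical.choice (G i h)
  refine ⟨fun x => (g' (a x) ⟨x, rfl⟩ ⟨x, rfl⟩).1, ?_, fun x => (g' (a x) ⟨x, rfl⟩ ⟨x, rfl⟩).2⟩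
  intro x y hxy
  have h0 : a x = a y := by
    rw [← (g' (a x) ⟨x, rfl⟩ ⟨x, rfl⟩).2, ← (g' (a y) ⟨y, rfl⟩ ⟨y, rfl⟩).2]
    exact congrArg b hxy
  have aux : ∀ i (hi : a y = i), (g' i ⟨y, hi⟩ ⟨y, hi⟩).1 = (g' (a y) ⟨y, rfl⟩ ⟨y, rfl⟩).1 := by
    rintro _ rfl
    rfl
  have h1 : g' (a x) ⟨x, rfl⟩ ⟨x, rfl⟩ = g' (a x) ⟨x, rfl⟩ ⟨y, h0.symm⟩ := by
    apply Subtype.ext
    refine Eq.trans hxy ?_
    exact (aux (a x) h0.symm).symm
  have h2 := (g' (a x) ⟨x, rfl⟩).injective h1
  exact congrArg Subtype.val h2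

/-- **Embedding criterion.** -/
theorem embeds_iff {J K E C : Type u} [CStarAlgebra E] [CStarAlgebra C] {n : J → ℕ} {m : K → ℕ}
    (hn : ∀ j, 0 < n j) (hm : ∀ k, 0 < m k) (hE : IsMatrixTensor n E) (hC : IsMatrixTensor m C) :
    EmbedsUnitally C E ↔ ∀ p : ℕ, p.Prime →
      #(Σ k, Fin (padicValNat p (m k))) ≤ #(Σ j, Fin (padicValNat p (n j))) := by
  classical
  obtain ⟨hEn, ιE, hιE, hgE⟩ := hE
  obtain ⟨hCn, ιC, hιC, hgC⟩ := hC
  have hE := musys_unitsOf ιE hn hιE
  have hC := musys_unitsOf ιC hm hιC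
  have hgE' := adjoin_unitsOf ιE hgE
  have hgC' := adjoin_unitsOf ιC hgC
  obtain ⟨e', he', _⟩ := exists_prime_musys hE
  obtain ⟨c', hc', hcg⟩ := exists_prime_musys hC
  have hgen : (Algebra.adjoin ℂ {x | ∃ t a b, x = c' t a b}).topologicalClosure = ⊤ := by
    have hle : Algebra.adjoin ℂ {x | ∃ j a b, x = unitsOf ιC j a b} ≤
        Algebra.adjoin ℂ {x | ∃ t a b, x = c' t a b} := by
      refine Algebra.adjoin_le ?_
      rintro _ ⟨j, a, b, rfl⟩
      exact hcg j a b
    rw [eq_top_iff, ← hgC']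
    exact Subalgebra.topologicalClosure_mono hle
  constructor
  · rintro ⟨φ, _⟩ p hp
    have : Fact p.Prime := ⟨hp⟩
    rw [← mk_fiber m hp]
    let U : {x : Tot m // prt m x = p} → Fin p → Fin p → C := fun x a b => c' x.1 a b
    have hU : MatFamily U := ⟨fun x => MatTuple.of_musys hc' x.1 x.2,
      fun x y hxy a b c d => (hc'.comm x.1 y.1 (fun h => hxy (Subtype.ext h)) _ _ _ _).eq⟩
    have hUφ := hU.map φ
    rcases finite_or_infinite {x : Tot m // prt m x = p} with hfin | hinf
    · have := Fintype.ofFinite {x : Tot m // prt m x = p}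
      obtain ⟨T, hT⟩ := exists_pow_dvd hE hgE' hUφ Finset.univ
      rw [Fintype.card_fin, Finset.card_univ] at hT
      have hne : ∏ j ∈ T, n j ≠ 0 := Finset.prod_ne_zero_iff.mpr fun j _ => (hn j).ne'
      have h2 := (padicValNat_dvd_iff_le (p := p) hne).mp hT
      rw [padic_prod T fun j _ => (hn j).ne'] at h2
      have h1 : #(Σ j : T, Fin (padicValNat p (n j))) ≤ #(Σ j, Fin (padicValNat p (n j))) :=
        mk_le_of_injective (f := fun x => (⟨x.1.1, x.2⟩ : Σ j, Fin (padicValNat p (n j)))) (by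
          rintro ⟨⟨a, ha⟩, b⟩ ⟨⟨c, hc⟩, d⟩ h
          simp only [Sigma.mk.injEq] at h
          obtain ⟨h1, h2⟩ := h
          subst h1
          rw [eq_of_heq h2])
      refine le_trans ?_ h1
      rw [Cardinal.mk_fintype, Cardinal.mk_fintype, Nat.cast_le, Fintype.card_sigma]
      simp only [Fintype.card_fin]
      rwa [Finset.sum_coe_sort T (fun j => padicValNat p (n j))]
    · refine (mk_le hE hgE' hUφ hp (by rw [Fintype.card_fin])).trans ?_
      have hv : ∀ j : {j | p ∣ n j}, 0 < padicValNat p (n j) := fun j =>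
        one_le_padicValNat_of_dvd (hn j).ne' j.2
      exact mk_le_of_injective
        (f := fun j : {j | p ∣ n j} => (⟨j.1, ⟨0, hv j⟩⟩ : Σ j, Fin (padicValNat p (n j)))) (by
          intro a b h
          simp only [Sigma.mk.injEq] at h
          exact Subtype.ext h.1)
  · intro hle
    have hg : ∀ x : Tot m, Nonempty ({x' // prt m x' = prt m x} ↪ {y // prt n y = prt m x}) := by
      intro x
      have := hle _ (prt_prime m x)
      rw [← mk_fiber m (prt_prime m x), ← mk_fiber n (prt_prime m x)] at this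
      exact this
    obtain ⟨f, hf, hpf⟩ := exists_inj_of_fiber (prt m) (prt n) fun x => Classical.choice (hg x)
    have h1 := he'.restrict f hf
    have h2 : (fun k => prt n (f k)) = prt m := funext hpf
    rw [h2] at h1
    obtain ⟨ψ, hψ, _⟩ := exists_embedding hc' h1 hgen
    exact ⟨ψ, hψ⟩

end Pool.Agent.V11109.UHFp
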